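import Pool.Agent.V7H10.OMG
import Pool.Agent.N671.DA.Tup

/-!
# Joint laws of `Ω` for all the good approximations of almost all systems of linear forms

Q1 of MP_e0aac0_nt asks for the independence of `Ω(n), Ω(n + 1), …, Ω(n + k - 1)`, `n ≤ N`. Here the vector
`(N, h_1, …, h_r)` of the scale and of the shifts `0, h_1, …, h_r` is given by the absolute values of the coordinates of an
integral vector `q` for which the `m` linear forms `∑_i q_i α_(i j) - β_j` are all within `c |q| ^ (-τ)` of integers. For all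
matrices `α` outside a set of small Hausdorff dimension ALL the large such `q` with `|q_i| ≤ A |q_0|` are good.

From the starting files: the power saving of the starting theorem `PowerSavingIndependence` of this problem and the tool
`Pool.Agent.N671.DA` (helper671).
-/

set_option autoImplicit false

namespace Pool.Agent.Results.MP_e0aac0_nt.DiophantineShiftsH10

open Finset MeasureTheory
open Pool.Agent.N671.DA (Near approx_tuples)
open Pool.Agent.V7H10.OMG (Good bad mem_bad base total)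
open Pool.Agent.Results.MP_e0aac0_nt.PowerSavingIndependence (NonExceptional)

/-- **Scales and shifts from approximations.** For `A`, `r ≥ 1` and `ε > 0` there are `E ≥ 1`, `D ≥ 6 E + 2` and
`0 < δ ≤ 1` such that for all `m`, all `β ∈ ℝ ^ m` and all `τ > 0` there is a set `X` of real `(r + 1) × m` matrices of
Hausdorff dimension at most `r m + (m + r + 1 - δ) / (1 + τ)` such that for all `α ∉ X` and all `c`, for all integral
vectors `q = (q_0, …, q_r)` of large norm with `‖∑_i q_i α_(i j) - β_j‖ ≤ c |q| ^ (-τ)` for all `j` and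
`|q_i| ≤ A |q_0|` for all `i`: the shifts `0, |q_1|, …, |q_r|` are good at the scale `|q_0|`, and no `q_i` is `0` or `± 1`.
There are arbitrarily large scales that are not exceptional. -/
theorem result (A r : ℕ) (hr : 1 ≤ r) (ε : ℝ) (hε : 0 < ε) :
    ∃ E D : ℕ, 1 ≤ E ∧ 6 * E + 2 ≤ D ∧ ∃ δ : ℝ, 0 < δ ∧ δ ≤ 1 ∧
      (∀ (m : ℕ) (β : Fin m → ℝ) (τ : ℝ), 0 < τ →
        ∃ X : Set (Fin (r + 1) × Fin m → ℝ),
          dimH X ≤ ENNReal.ofReal ((r : ℝ) * m + (m + ((r : ℝ) + 1 - δ)) / (1 + τ)) ∧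
          ∀ α, α ∉ X → ∀ c : ℝ, ∃ Q : ℝ, ∀ q : Fin (r + 1) → ℤ, Q ≤ ‖q‖ → Near α β q (c * ‖q‖ ^ (-τ)) →
            (∀ i, 2 ≤ (q i).natAbs) ∧
            ((∀ i : Fin r, (q i.succ).natAbs ≤ A * (q 0).natAbs) →
              Good E D ε (q 0).natAbs (fun i : Fin r => (q i.succ).natAbs))) ∧
      (∀ N₁ : ℕ, ∃ N : ℕ, N₁ ≤ N ∧ NonExceptional E D N) := by
  classical
  obtain ⟨E, D, hE, hD, δ, hδ, hδ1, C, hC, hbad, hex⟩ := base A r ε hε
  obtain ⟨K, hK⟩ := total hr hδ1 hC hbad
  refine ⟨E, D, hE, hD, δ, hδ, hδ1, fun m β τ hτ => ?_, hex⟩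
  obtain ⟨X, hX, h⟩ := approx_tuples (k := r + 1) (m := m) (by omega)
    {w : Fin (r + 1) → ℕ | (∀ i : Fin r, w i.succ ≤ A * w 0) ∧ ¬ Good E D ε (w 0) (fun i => w i.succ)}
    (c₀ := δ) (C₀ := K) hδ1 (by
      intro T hT
      refine le_trans ?_ (le_trans (hK T hT) (le_of_eq (by push_cast; rfl)))
      have hfin : {z : Fin (r + 1) → ℕ | z 0 ≤ T ∧ (∀ i : Fin r, 1 ≤ z i.succ ∧ z i.succ ≤ A * z 0) ∧
          ¬ Good E D ε (z 0) (fun i => z i.succ)}.Finite := by
        apply (Fintype.piFinset fun _ : Fin (r + 1) => range (T + A * T + 1)).finite_toSet.subset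
        rintro z ⟨h1, h2, _⟩
        rw [mem_coe, Fintype.mem_piFinset]
        intro i
        rw [mem_range]
        refine Fin.cases ?_ (fun j => ?_) i
        · omega
        · have h3 := (h2 j).2
          have h4 : A * z 0 ≤ A * T := Nat.mul_le_mul_left _ h1
          omega
      apply Nat.cast_le.2
      apply Set.ncard_le_ncard _ hfin
      rintro w ⟨h1, h2, h3⟩
      exact ⟨(h1 0).2, fun i => ⟨by have := (h1 i.succ).1; omega, h2 i⟩, h3⟩) β hτ
  refine ⟨X, ?_, fun α hα c => ?_⟩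
  · refine hX.trans (le_of_eq ?_)
    congr 1
    push_cast
    ring
  · obtain ⟨Q, hQ⟩ := h α hα c
    refine ⟨Q, fun q hq hn => ?_⟩
    obtain ⟨h1, h2⟩ := hQ q hq hn
    refine ⟨h1, fun h3 => ?_⟩
    by_contra hcon
    exact h2 ⟨h3, hcon⟩

end Pool.Agent.Results.MP_e0aac0_nt.DiophantineShiftsH10
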