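import Pool.Agent.V7H10.OMG
import Pool.Agent.V7H10.TB

/-!
# Joint laws of `Ω` at all shifts near tuples of values of multiplicative functions

Q1 of MP_e0aac0_nt asks for the independence of `Ω(n), Ω(n + 1), …, Ω(n + k - 1)`. Here the shifts are `0` and ALL the
integers `h_1, …, h_r` in boxes of radius `N ^ κ` around `(α_1 f_1(m_1), …, α_r f_r(m_r))`, where the `f_i` are multiplicative
functions such as Euler's function, the sum of the divisors or the identity, for all but `N ^ r / (log N) ^ U` of the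
`m ∈ [1, N] ^ r`. The set of the values of such functions has density zero and its elements are in general taken with very
large multiplicities.

From the starting files: the power saving of the starting theorem `PowerSavingIndependence` of this problem (which treats
tuples of moving shifts without the shift `0` and says nothing on a given thin set of shifts) and the tool
`Pool.Agent.N733.TG` (helper733).
-/

set_option autoImplicit false

namespace Pool.Agent.Results.MP_e0aac0_nt.MultiplicativeShiftsH10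

open Finset
open Pool.Agent.N733.TG (LM lm_totient lm_sigma)
open Pool.Agent.V7H10.OMG (Good bad mem_bad base)
open Pool.Agent.Results.MP_e0aac0_nt.PowerSavingIndependence (NonExceptional)

/-- **Shifts near tuples of values of multiplicative functions.** For `A`, `r` and `ε > 0` there are `E ≥ 1`,
`D ≥ 6 E + 2` and `κ > 0` such that for all multiplicative functions `f_1, …, f_r` with the property `LM` (for example
Euler's function and the sum of the divisors), all real `α_i > 0` and all `U`, for all large `N`, for all but at most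
`N ^ r / (log N) ^ U` of the `m ∈ [1, N] ^ r`: ALL the `h` with `1 ≤ h_i ≤ A N` and `|h_i - α_i f_i(m_i)| ≤ N ^ κ` are good
at the scale `N`. There are arbitrarily large scales that are not exceptional. -/
theorem result (A r : ℕ) (ε : ℝ) (hε : 0 < ε) :
    ∃ E D : ℕ, 1 ≤ E ∧ 6 * E + 2 ≤ D ∧ ∃ κ : ℝ, 0 < κ ∧
      (∀ f : Fin r → ℕ → ℕ, (∀ i, LM (f i)) → ∀ α : Fin r → ℝ, (∀ i, 0 < α i) → ∀ U : ℕ, ∃ N₀ : ℕ, ∀ N : ℕ, N₀ ≤ N →
        ({m : Fin r → ℕ | (∀ i, 1 ≤ m i ∧ m i ≤ N) ∧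
          ¬ ∀ h : Fin r → ℕ, (∀ i, 1 ≤ h i ∧ h i ≤ A * N ∧ |(h i : ℝ) - α i * f i (m i)| ≤ (N : ℝ) ^ κ) →
            Good E D ε N h}.ncard : ℝ) ≤ (N : ℝ) ^ r / Real.log N ^ U) ∧
      (∀ N₁ : ℕ, ∃ N : ℕ, N₁ ≤ N ∧ NonExceptional E D N) ∧
      (LM Nat.totient ∧ LM (fun m => ∑ d ∈ m.divisors, d)) := by
  classical
  obtain ⟨E, D, hE, hD, δ, hδ, hδ1, C, hC, ⟨N₀, hN₀⟩, hex⟩ := base A r ε hε
  obtain ⟨κ, hκ0, hκ1⟩ : ∃ κ : ℝ, 0 < κ ∧ κ * r < δ := by
    refine ⟨δ / (2 * (r + 1)), by positivity, ?_⟩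
    rw [div_mul_eq_mul_div, div_lt_iff₀ (by positivity)]
    have : (0 : ℝ) ≤ r := Nat.cast_nonneg r
    nlinarith
  refine ⟨E, D, hE, hD, κ, hκ0, fun f hf α hα U => ?_, hex, lm_totient, lm_sigma⟩
  obtain ⟨N₁, hN₁⟩ := Pool.Agent.V7H10.TB.avoid_boxes hf α hα hκ0.le hκ1 C U
  refine ⟨max N₀ N₁, fun N hN => ?_⟩
  have hBc := hN₀ N ((le_max_left _ _).trans hN)
  refine le_trans ?_ (hN₁ N ((le_max_right _ _).trans hN) (bad A E D ε r N) hBc)
  have hfin : {m : Fin r → ℕ | (∀ i, 1 ≤ m i ∧ m i ≤ N) ∧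
      ∃ h ∈ bad A E D ε r N, ∀ i, |(h i : ℝ) - α i * f i (m i)| ≤ (N : ℝ) ^ κ}.Finite := by
    apply (Fintype.piFinset fun _ : Fin r => Finset.Icc 1 N).finite_toSet.subset
    intro m hm
    rw [Finset.mem_coe, Fintype.mem_piFinset]
    exact fun i => Finset.mem_Icc.2 (hm.1 i)
  have hsub : {m : Fin r → ℕ | (∀ i, 1 ≤ m i ∧ m i ≤ N) ∧
      ¬ ∀ h : Fin r → ℕ, (∀ i, 1 ≤ h i ∧ h i ≤ A * N ∧ |(h i : ℝ) - α i * f i (m i)| ≤ (N : ℝ) ^ κ) →
        Good E D ε N h} ⊆
      {m : Fin r → ℕ | (∀ i, 1 ≤ m i ∧ m i ≤ N) ∧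
        ∃ h ∈ bad A E D ε r N, ∀ i, |(h i : ℝ) - α i * f i (m i)| ≤ (N : ℝ) ^ κ} := by
    rintro m ⟨h3, h4⟩
    push Not at h4
    obtain ⟨h, h5, h6⟩ := h4
    exact ⟨h3, h, mem_bad.2 ⟨fun i => ⟨(h5 i).1, (h5 i).2.1⟩, h6⟩, fun i => (h5 i).2.2⟩
  exact_mod_cast Set.ncard_le_ncard hsub hfin

end Pool.Agent.Results.MP_e0aac0_nt.MultiplicativeShiftsH10
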