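import Pool.Agent.V7H10.OMG
import Pool.Agent.R482.ST.Vec

/-!
# Joint laws of `Ω` for all scales and shifts near radial starshaped sequences

Q1 of MP_e0aac0_nt asks for the independence of `Ω(n), Ω(n + 1), …, Ω(n + k - 1)`, `n ≤ N`. Here the vector
`(N, h_1, …, h_r)` of the scale and of the shifts `0, h_1, …, h_r` is ANY integral vector near one of the points
`(r_k / ‖u‖) u`, `r_k = f_k(‖u‖)`, of a fixed sequence on the ray of `u`, such as `2 ^ k u`, `‖u‖ ^ (k - 1) u` or the orbit of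
a map; all the large members of the sequence are good, for all `u` outside a set whose Hausdorff dimension is smaller than
that of the space.

From the starting files: the power saving of the starting theorem `PowerSavingIndependence` of this problem and the tool
`Pool.Agent.R482.ST` (helper482).
-/

set_option autoImplicit false

namespace Pool.Agent.Results.MP_e0aac0_nt.StarshapedShiftsH10

open Finset MeasureTheory
open Pool.Agent.R482.ST (Starshaped Conv vec_windows_nat ex_mul ex_pow ex_orbit)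
open Pool.Agent.V7H10.OMG (Good bad mem_bad base total)
open Pool.Agent.Results.MP_e0aac0_nt.PowerSavingIndependence (NonExceptional)

/-- **Scales and shifts near radial starshaped sequences.** For `A`, `r ≥ 1` and `ε > 0` there are `E ≥ 1`, `D ≥ 6 E + 2` and
`0 < δ ≤ 1` such that for all starshaped sequences `f` on `(a, ∞)` with exponent of convergence at most `τ` and all `θ < 1`
there is a set `X` of Hausdorff dimension at most `(r + 1 - δ + τ) / (1 - θ)` such that for all `u ∉ X` with `‖u‖ > a`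
and all `c`, for all large `k`: ALL the `(N, h)` within `c f_k(‖u‖) ^ θ` of `(f_k(‖u‖) / ‖u‖) u` with `1 ≤ h_i ≤ A N` are
good. There are arbitrarily large scales that are not exceptional. -/
theorem result (A r : ℕ) (hr : 1 ≤ r) (ε : ℝ) (hε : 0 < ε) :
    (∃ E D : ℕ, 1 ≤ E ∧ 6 * E + 2 ≤ D ∧ ∃ δ : ℝ, 0 < δ ∧ δ ≤ 1 ∧
      (∀ (f : ℕ → ℝ → ℝ) (a τ θ : ℝ), Starshaped a f → 0 ≤ τ → Conv a f τ → θ < 1 →
        ∃ X : Set (Fin (r + 1) → ℝ), dimH X ≤ ENNReal.ofReal (((r : ℝ) + 1 - δ + τ) / (1 - θ)) ∧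
          ∀ u : Fin (r + 1) → ℝ, a < ‖u‖ → u ∉ X → ∀ c : ℝ, ∃ k₀ : ℕ, ∀ k : ℕ, k₀ ≤ k → ∀ (N : ℕ) (h : Fin r → ℕ),
            |(N : ℝ) - f k ‖u‖ / ‖u‖ * u 0| ≤ c * (f k ‖u‖) ^ θ →
            (∀ i : Fin r, |(h i : ℝ) - f k ‖u‖ / ‖u‖ * u i.succ| ≤ c * (f k ‖u‖) ^ θ) →
            (∀ i, 1 ≤ h i ∧ h i ≤ A * N) → Good E D ε N h) ∧
      (∀ N₁ : ℕ, ∃ N : ℕ, N₁ ≤ N ∧ NonExceptional E D N)) ∧
    -- examples of starshaped sequences: multiples, powers, orbits
    (∀ (v : ℕ → ℝ) (τ : ℝ), (∀ n, 0 < v n) → (∀ t : ℝ, τ < t → Summable (fun n : ℕ => (v n) ^ (-t))) →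
      Starshaped 0 (fun n x => v n * x) ∧ Conv 0 (fun n x => v n * x) τ) ∧
    (∀ v : ℕ → ℝ, (∀ n, 1 ≤ v n) → (∀ t : ℝ, 0 < t → Summable fun n : ℕ => Real.exp (-(t * v n))) →
      Starshaped 1 (fun n x => x ^ (v n)) ∧ Conv 1 (fun n x => x ^ (v n)) 0) ∧
    (∀ (a : ℝ) (g : ℝ → ℝ), 0 ≤ a → (∀ x y : ℝ, a < x → x ≤ y → g x / x ≤ g y / y) → (∀ x : ℝ, a < x → x < g x) →
      Starshaped a (fun n x => g^[n] x) ∧ Conv a (fun n x => g^[n] x) 0) := by
  refine ⟨?_, ex_mul, ex_pow, ex_orbit⟩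
  classical
  obtain ⟨E, D, hE, hD, δ, hδ, hδ1, C, hC, hbad, hex⟩ := base A r ε hε
  obtain ⟨K, hK⟩ := total hr hδ1 hC hbad
  refine ⟨E, D, hE, hD, δ, hδ, hδ1, fun f a τ θ hf hτ hv hθ => ?_, hex⟩
  have hr1 : (1 : ℝ) ≤ r := by exact_mod_cast hr
  obtain ⟨X, hX, h⟩ := vec_windows_nat (ι := Fin (r + 1))
    (fun z _ => ∃ (N : ℕ) (h : Fin r → ℕ), z = Fin.cons (N : ℤ) (fun i => (h i : ℤ)) ∧ (∀ i, 1 ≤ h i ∧ h i ≤ A * N) ∧
      ¬ Good E D ε N h) (fun z _ _ _ hz => hz) (s := (r : ℝ) + 1 - δ) (by linarith) (by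
      refine ⟨K, fun H hH => le_trans ?_ (hK H hH)⟩
      have hfin : {z : Fin (r + 1) → ℕ | z 0 ≤ H ∧ (∀ i : Fin r, 1 ≤ z i.succ ∧ z i.succ ≤ A * z 0) ∧
          ¬ Good E D ε (z 0) (fun i => z i.succ)}.Finite := by
        apply (Fintype.piFinset fun _ : Fin (r + 1) => range (H + A * H + 1)).finite_toSet.subset
        rintro z ⟨h1, h2, _⟩
        rw [mem_coe, Fintype.mem_piFinset]
        intro i
        rw [mem_range]
        refine Fin.cases ?_ (fun j => ?_) i
        · omega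
        · have h3 := (h2 j).2
          have h4 : A * z 0 ≤ A * H := Nat.mul_le_mul_left _ h1
          omega
      apply Nat.cast_le.2
      apply Set.ncard_le_ncard_of_injOn (fun z i => (z i).natAbs) _ _ hfin
      · rintro z ⟨h1, N, h, rfl, h2, h3⟩
        refine ⟨?_, fun i => ?_, ?_⟩
        · have := h1 0
          rw [Fin.cons_zero] at this
          simp only [Fin.cons_zero, Int.natAbs_natCast]
          rw [Nat.abs_cast] at this
          exact_mod_cast this
        · simp only [Fin.cons_zero, Fin.cons_succ, Int.natAbs_natCast]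
          exact h2 i
        · simp only [Fin.cons_zero, Fin.cons_succ, Int.natAbs_natCast]
          exact h3
      · rintro z ⟨_, N, h, rfl, _⟩ z' ⟨_, N', h', rfl, _⟩ he
        have h0 := congrFun he 0
        simp only [Fin.cons_zero, Int.natAbs_natCast] at h0
        subst h0
        congr 1
        funext i
        have h1 := congrFun he i.succ
        simp only [Fin.cons_succ, Int.natAbs_natCast] at h1
        rw [h1]) f a τ θ hf hτ hv hθ
  refine ⟨X, hX, fun u hu huX c => ?_⟩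
  obtain ⟨k₀, hk₀⟩ := h u hu huX c
  refine ⟨k₀, fun k hk N h h1 h2 h3 => ?_⟩
  by_contra hcon
  refine hk₀ k hk (Fin.cons (N : ℤ) (fun i => (h i : ℤ))) (fun i => ?_) ⟨N, h, rfl, h3, hcon⟩
  refine Fin.cases ?_ (fun j => ?_) i
  · rw [Fin.cons_zero]
    exact_mod_cast h1
  · rw [Fin.cons_succ]
    exact_mod_cast h2 j

end Pool.Agent.Results.MP_e0aac0_nt.StarshapedShiftsH10
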