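import Pool.Agent.V7H10.OMG
import Pool.Agent.V7H10.SL
import Pool.Agent.N760.IT.E

/-!
# Joint laws of `Ω` at all shifts near the orbits of Euler's function

Q1 of MP_e0aac0_nt asks for the independence of `Ω(n), Ω(n + 1), …, Ω(n + k - 1)`, `n ≤ N`. Here one of the shifts is ANY
integer near `G(f(φ_k(m)))`, `k ≤ K`, where `φ_k` is the `k`-fold iterate of Euler's function, `f` is multiplicative (the
identity, Euler's function, the sum of the divisors, …) and `G` is increasing of linear growth, for almost all `m ≤ N`;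
the other shifts are arbitrary outside a set with a power saving, `0` is one of them. The values of the iterates of Euler's
function are a very thin set.

From the starting files: the power saving of the starting theorem `PowerSavingIndependence` of this problem and the tool
`Pool.Agent.N760.IT` (helper760).
-/

set_option autoImplicit false

namespace Pool.Agent.Results.MP_e0aac0_nt.TotientOrbitShiftsH10

open Finset
open Pool.Agent.N733.TG (LM Expanding)
open Pool.Agent.N760.IT (orb orbit_unif)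
open Pool.Agent.V7H10.OMG (Good bad mem_bad base)
open Pool.Agent.V7H10.SL (Slice slice)
open Pool.Agent.Results.MP_e0aac0_nt.PowerSavingIndependence (NonExceptional)

/-- **Shifts near the orbits of Euler's function.** For `A`, `r` and `ε > 0` there are `E ≥ 1`, `D ≥ 6 E + 2` and
`0 < κ < 1` such that for all `f` with `LM`, all `G` with steps at least a positive constant and of linear growth, all `K` and
`η > 0`, for all large `N` there is a set `X` of at most `N ^ (r - κ)` vectors such that for all `h' ∈ [1, A N] ^ r` outside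
`X`, for all but `η N` of the `m ≤ N`, for all `k ≤ K` and ALL `h` with `N ^ (1 - κ) ≤ h ≤ A N` and
`|h - G(f(φ_k m))| ≤ f(φ_k m) ^ κ`: the shifts `0, h, h'_1, …, h'_r` are good at the scale `N`. There are arbitrarily large
scales that are not exceptional. -/
theorem result (A r : ℕ) (ε : ℝ) (hε : 0 < ε) :
    ∃ E D : ℕ, 1 ≤ E ∧ 6 * E + 2 ≤ D ∧ ∃ κ : ℝ, 0 < κ ∧ κ < 1 ∧
      (∀ f : ℕ → ℕ, LM f → ∀ G : ℕ → ℝ, Expanding G 1 → ∀ (K : ℕ) (η : ℝ), 0 < η → ∃ N₀ : ℕ, ∀ N : ℕ, N₀ ≤ N →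
        ∃ X : Finset (Fin r → ℕ), (X.card : ℝ) ≤ (N : ℝ) ^ ((r : ℝ) - κ) ∧
          ∀ h' : Fin r → ℕ, (∀ i, 1 ≤ h' i ∧ h' i ≤ A * N) → h' ∉ X →
            ({m : ℕ | 1 ≤ m ∧ m ≤ N ∧ ¬ ∀ k ≤ K, ∀ h : ℕ, (N : ℝ) ^ (1 - κ) ≤ h → h ≤ A * N →
              |(h : ℝ) - G (orb f k m)| ≤ (orb f k m : ℝ) ^ κ →
                Good E D ε N (Fin.cons h h' : Fin (r + 1) → ℕ)}.ncard : ℝ) ≤ η * N) ∧
      (∀ N₁ : ℕ, ∃ N : ℕ, N₁ ≤ N ∧ NonExceptional E D N) := by
  classical
  obtain ⟨E, D, hE, hD, δ, hδ, hδ1, C, hC, ⟨N₀, hN₀⟩, hex⟩ := base A (r + 1) ε hε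
  refine ⟨E, D, hE, hD, δ / 8, by positivity, by linarith, fun f hf G hG K η hη => ?_, hex⟩
  obtain ⟨N₁, hN₁⟩ := slice A r hδ hδ1 C
  obtain ⟨N₂, hN₂⟩ := orbit_unif (T := ℕ) hf hG (s := 1 - δ / 4) (κ := δ / 8) (by linarith) (by positivity) (by linarith)
    1 K η hη
  refine ⟨max N₀ (max N₁ N₂), fun N hN => ?_⟩
  obtain ⟨X, hX, h⟩ := hN₁ N (((le_max_left _ _).trans (le_max_right _ _)).trans hN) (fun h => ¬ Good E D ε N h) (by
    refine le_trans (le_of_eq ?_) (hN₀ N ((le_max_left _ _).trans hN))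
    unfold bad
    congr!)
  refine ⟨X, hX, fun h' hh' hX' => ?_⟩
  have h1 := hN₂ (Slice A (δ / 8) (fun h => ¬ Good E D ε N h) N h') (fun t : ℕ => (t : ℝ)) (h h' hh' hX') N
          (((le_max_right _ _).trans (le_max_right _ _)).trans hN)
  refine le_trans ?_ h1
  apply Nat.cast_le.2
  apply Set.ncard_le_ncard
  · rintro m ⟨h2, h3, h4⟩
    refine ⟨h2, h3, ?_⟩
    push Not at h4
    obtain ⟨k, hk, t, ht1, ht2, ht3, ht4⟩ := h4
    exact ⟨k, hk, t, ⟨ht1, ht2, ht4⟩, ht3⟩
  · apply (Set.finite_Icc 1 N).subset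
    rintro m ⟨h2, h3, _⟩
    exact ⟨h2, h3⟩

end Pool.Agent.Results.MP_e0aac0_nt.TotientOrbitShiftsH10
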